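import Mathlib
import Pool.Agent.Helper12.LW.Defs

/-!
# MP_be0fb5: a circuit of four facets attains the asymmetry

For a polytope `M` without a centre of asymmetry `s > 2` there are four of its facets whose simplex `L k ≥ 0`
has points `p k` of `M` with `∑ L k (p k) ≥ 1 + s`.
-/

set_option autoImplicit false

namespace Pool.Agent.Helper24.MX

open Matrix
open Pool.Agent.Helper12.LW (toR)

/-- Farkas for strict inequalities: an infeasible finite system has a nonnegative combination -/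
theorem farkas {ι : Type} [Fintype ι] (v : ι → Fin 3 → ℝ) (β : ι → ℝ)
    (h : ∀ c : Fin 3 → ℝ, ∃ j, β j ≤ v j ⬝ᵥ c) :
    ∃ lam : ι → ℝ, (∀ j, 0 ≤ lam j) ∧ (∃ j, 0 < lam j) ∧ ∑ j, lam j • v j = 0 ∧ ∑ j, lam j * β j ≤ 0 := by
  classical
  obtain ⟨U, hU⟩ : ∃ U : Set (ι → ℝ), U = {y | ∀ j, y j < β j} := ⟨_, rfl⟩
  obtain ⟨R, hR⟩ : ∃ R : Set (ι → ℝ), R = Set.range (fun c : Fin 3 → ℝ => fun j => v j ⬝ᵥ c) := ⟨_, rfl⟩
  have hUopen : IsOpen U := by
    have h1 : U = ⋂ j, {y : ι → ℝ | y j < β j} := by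
      rw [hU]
      ext y
      simp
    rw [h1]
    exact isOpen_iInter_of_finite fun j => isOpen_lt (continuous_apply j) continuous_const
  have hUconv : Convex ℝ U := by
    rw [hU]
    intro x hx y hy a b ha hb hab j
    have h1 := hx j
    have h2 := hy j
    simp only [Pi.add_apply, Pi.smul_apply, smul_eq_mul]
    rcases ha.eq_or_lt with h0 | h0
    · rw [← h0] at hab ⊢
      have : b = 1 := by linarith
      rw [this]
      linarith
    · have h3 := mul_lt_mul_of_pos_left h1 h0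
      have h4 := mul_le_mul_of_nonneg_left h2.le hb
      have h5 : a * β j + b * β j = β j := by rw [← add_mul, hab, one_mul]
      linarith
  have hRconv : Convex ℝ R := by
    rw [hR]
    rintro _ ⟨c, rfl⟩ _ ⟨d, rfl⟩ a b _ _ _
    refine ⟨a • c + b • d, ?_⟩
    funext j
    simp only [Pi.add_apply, Pi.smul_apply, smul_eq_mul, dotProduct_add, dotProduct_smul]
  have hdisj : Disjoint U R := by
    rw [Set.disjoint_left]
    intro y hy hy'
    rw [hR] at hy'
    obtain ⟨c, rfl⟩ := hy'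
    rw [hU] at hy
    obtain ⟨j, hj⟩ := h c
    exact absurd (hy j) (not_lt.mpr hj)
  obtain ⟨f, u, hfU, hfR⟩ := geometric_hahn_banach_open hUconv hUopen hRconv hdisj
  obtain ⟨lam, hlam⟩ : ∃ lam : ι → ℝ, lam = fun j => f (Pi.single j 1) := ⟨_, rfl⟩
  have hf : ∀ y : ι → ℝ, f y = ∑ j, lam j * y j := by
    intro y
    have h1 : y = ∑ j, y j • (Pi.single j 1 : ι → ℝ) := by
      funext i
      simp [Finset.sum_apply, Pi.single_apply]
    conv_lhs => rw [h1]
    rw [map_sum, hlam]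
    refine Finset.sum_congr rfl fun j _ => ?_
    rw [map_smul, smul_eq_mul, mul_comm]
  -- `f` vanishes on the range
  have hfz : ∀ c : Fin 3 → ℝ, ∑ j, lam j * (v j ⬝ᵥ c) = 0 := by
    intro c
    have h1 : ∀ t : ℝ, u ≤ t * ∑ j, lam j * (v j ⬝ᵥ c) := by
      intro t
      have h2 := hfR (fun j => v j ⬝ᵥ (t • c)) (by rw [hR]; exact ⟨t • c, rfl⟩)
      rw [hf] at h2
      refine h2.trans (le_of_eq ?_)
      rw [Finset.mul_sum]
      refine Finset.sum_congr rfl fun j _ => ?_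
      rw [dotProduct_smul, smul_eq_mul]
      ring
    by_contra hne
    have h3 := h1 ((u - 1) / ∑ j, lam j * (v j ⬝ᵥ c))
    rw [div_mul_cancel₀ _ hne] at h3
    linarith
  have hu : u ≤ 0 := by
    have h2 := hfR (fun j => v j ⬝ᵥ (0 : Fin 3 → ℝ)) (by rw [hR]; exact ⟨0, rfl⟩)
    rw [hf] at h2
    simpa using h2
  -- points of `U`
  have hUneg : ∀ y : ι → ℝ, (∀ j, y j < β j) → ∑ j, lam j * y j < 0 := by
    intro y hy
    have h1 := hfU y (by rw [hU]; exact hy)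
    rw [hf] at h1
    linarith
  have hnn : ∀ j, 0 ≤ lam j := by
    intro j
    by_contra hcon
    push Not at hcon
    obtain ⟨S0, hS0⟩ : ∃ S0 : ℝ, S0 = ∑ i, lam i * (β i - 1) := ⟨_, rfl⟩
    obtain ⟨t, ht⟩ : ∃ t : ℝ, t = |S0| / (-lam j) := ⟨_, rfl⟩
    have ht0 : 0 ≤ t := by rw [ht]; exact div_nonneg (abs_nonneg _) (by linarith)
    have h1 := hUneg (fun i => (β i - 1) - (if i = j then t else 0)) (by
      intro i
      split_ifs <;> linarith)
    have h2 : ∑ i, lam i * ((β i - 1) - (if i = j then t else 0)) = S0 - lam j * t := by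
      simp only [mul_sub]
      rw [Finset.sum_sub_distrib]
      congr 1
      · rw [hS0]
        refine Finset.sum_congr rfl fun i _ => ?_
        ring
      · simp
    rw [h2] at h1
    have h3 : lam j * t = -|S0| := by
      rw [ht]
      have h4 : lam j ≠ 0 := hcon.ne
      rw [div_neg, mul_neg, mul_div_cancel₀ _ h4]
    rw [h3] at h1
    have := neg_abs_le S0
    linarith
  refine ⟨lam, hnn, ?_, ?_, ?_⟩
  · by_contra hcon
    push Not at hcon
    have h1 : ∀ j, lam j = 0 := fun j => le_antisymm (hcon j) (hnn j)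
    have h2 := hUneg (fun j => β j - 1) (fun j => by linarith)
    simp [h1] at h2
  · funext i
    have h1 := hfz (Pi.single i 1)
    simp only [dotProduct_single, mul_one] at h1
    rw [Finset.sum_apply]
    simpa [Pi.smul_apply, smul_eq_mul] using h1
  · by_contra hcon
    push Not at hcon
    obtain ⟨Λ, hΛ⟩ : ∃ Λ : ℝ, Λ = ∑ j, lam j := ⟨_, rfl⟩
    have hΛ0 : 0 ≤ Λ := by rw [hΛ]; exact Finset.sum_nonneg fun j _ => hnn j
    obtain ⟨e, he⟩ : ∃ e : ℝ, e = (∑ j, lam j * β j) / (Λ + 1) := ⟨_, rfl⟩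
    have he0 : 0 < e := by rw [he]; positivity
    have h1 := hUneg (fun j => β j - e) (fun j => by linarith)
    have h2 : ∑ j, lam j * (β j - e) = (∑ j, lam j * β j) - Λ * e := by
      simp only [mul_sub]
      rw [Finset.sum_sub_distrib, hΛ, Finset.sum_mul]
    rw [h2] at h1
    have h3 : (Λ + 1) * e = ∑ j, lam j * β j := by
      rw [he]
      field_simp
    linarith

/-- **four facets**: for a polytope without centre of asymmetry `s > 2` there is a circuit of four facets whose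
simplex `L k x = lam k • v (z k) ⬝ᵥ (z k - x) ≥ 0` has points `p k` of `M` with `∑ L k (p k) ≥ 1 + s`. -/
theorem facet_circuit (T : Finset (Fin 3 → ℤ)) (v : (Fin 3 → ℤ) → Fin 3 → ℝ) (M : Set (Fin 3 → ℝ))
    (hM : M = {x | ∀ z ∈ T, v z ⬝ᵥ x ≤ v z ⬝ᵥ toR z}) (hv : ∀ z ∈ T, v z ≠ 0) (hc : IsCompact M)
    (hint : (interior M).Nonempty) (s : ℝ) (hs : 2 < s)
    (hno : ∀ c : Fin 3 → ℝ, ∃ x ∈ M, c - (1 / s) • (x - c) ∉ M) :
    ∃ (z : Fin 4 → Fin 3 → ℤ) (lam : Fin 4 → ℝ) (p : Fin 4 → Fin 3 → ℝ),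
      Function.Injective z ∧ (∀ k, z k ∈ T) ∧ (∀ k, 0 < lam k) ∧ ∑ k, lam k • v (z k) = 0 ∧
      ∑ k, (lam k • v (z k)) ⬝ᵥ toR (z k) = 1 ∧ (∀ k, p k ∈ M) ∧
      1 + s ≤ ∑ k, (lam k • v (z k)) ⬝ᵥ (toR (z k) - p k) := by
  classical
  have hs0 : 0 < s := by linarith
  obtain ⟨x0, hx0⟩ := hint
  have hx0M : x0 ∈ M := interior_subset hx0
  -- minima
  have hmin : ∀ z : Fin 3 → ℤ, ∃ p ∈ M, ∀ x ∈ M, v z ⬝ᵥ p ≤ v z ⬝ᵥ x := by
    intro z
    have hcont : ContinuousOn (fun x : Fin 3 → ℝ => v z ⬝ᵥ x) M := by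
      apply Continuous.continuousOn
      simp only [dotProduct]
      fun_prop
    obtain ⟨p, hp, h⟩ := hc.exists_isMinOn ⟨x0, hx0M⟩ hcont
    exact ⟨p, hp, fun x hx => h hx⟩
  choose pm hpm hpmin using hmin
  obtain ⟨β, hβ⟩ : ∃ β : (Fin 3 → ℤ) → ℝ, β = fun z => (s * (v z ⬝ᵥ toR z) + v z ⬝ᵥ pm z) / (1 + s) := ⟨_, rfl⟩
  -- strictness at the interior point
  have hstrict : ∀ z ∈ T, v z ⬝ᵥ x0 < v z ⬝ᵥ toR z := by
    intro z hz
    have hle : ∀ x ∈ M, v z ⬝ᵥ x ≤ v z ⬝ᵥ toR z := by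
      intro x hx
      rw [hM] at hx
      exact hx z hz
    rw [mem_interior_iff_mem_nhds, Metric.mem_nhds_iff] at hx0
    obtain ⟨ε, hε, hb⟩ := hx0
    have hvv : 0 < v z ⬝ᵥ v z := by
      have hnn0 : 0 ≤ v z ⬝ᵥ v z := Finset.sum_nonneg fun i _ => mul_self_nonneg (v z i)
      rcases hnn0.eq_or_lt with h | h
      · exact absurd (dotProduct_self_eq_zero.mp h.symm) (hv z hz)
      · exact h
    obtain ⟨t, ht⟩ : ∃ t : ℝ, t = ε / (2 * (‖v z‖ + 1)) := ⟨_, rfl⟩
    have hn := norm_nonneg (v z)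
    have ht0 : 0 < t := by rw [ht]; positivity
    have h1 : x0 + t • v z ∈ M := by
      apply hb
      rw [Metric.mem_ball, dist_eq_norm, add_sub_cancel_left, norm_smul, Real.norm_eq_abs, abs_of_pos ht0, ht,
        div_mul_eq_mul_div, div_lt_iff₀ (by positivity)]
      nlinarith
    have h2 := hle _ h1
    rw [dotProduct_add, dotProduct_smul, smul_eq_mul] at h2
    have h3 := mul_pos ht0 hvv
    linarith
  -- the open half-spaces have no common point
  have hempty : ¬ (⋂ z ∈ T, {c : Fin 3 → ℝ | v z ⬝ᵥ c < β z}).Nonempty := by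
    rintro ⟨c, hcc⟩
    obtain ⟨x, hx, hnx⟩ := hno c
    apply hnx
    rw [hM]
    intro z hz
    have h1 : v z ⬝ᵥ c < β z := by
      have := Set.mem_iInter₂.mp hcc z hz
      exact this
    have h2 := hpmin z x hx
    rw [hβ] at h1
    simp only at h1
    rw [lt_div_iff₀ (by linarith)] at h1
    rw [dotProduct_sub, dotProduct_smul, dotProduct_sub, smul_eq_mul]
    have h3 : s * (v z ⬝ᵥ c - 1 / s * (v z ⬝ᵥ x - v z ⬝ᵥ c)) ≤ s * (v z ⬝ᵥ toR z) := by
      have h4 : s * (v z ⬝ᵥ c - 1 / s * (v z ⬝ᵥ x - v z ⬝ᵥ c)) =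
          s * (v z ⬝ᵥ c) - (v z ⬝ᵥ x - v z ⬝ᵥ c) := by
        field_simp
      rw [h4]
      linarith
    exact le_of_mul_le_mul_left h3 hs0
  -- Helly
  have hex : ∃ I ⊆ T, I.card ≤ 4 ∧ ¬ (⋂ z ∈ I, {c : Fin 3 → ℝ | v z ⬝ᵥ c < β z}).Nonempty := by
    by_contra hcon
    push Not at hcon
    apply hempty
    apply Convex.helly_theorem' (𝕜 := ℝ)
    · intro z _
      intro x hx y hy a b ha hb hab
      simp only [Set.mem_setOf_eq, dotProduct_add, dotProduct_smul, smul_eq_mul] at hx hy ⊢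
      rcases ha.eq_or_lt with h0 | h0
      · rw [← h0] at hab ⊢
        have : b = 1 := by linarith
        rw [this]
        linarith
      · have h3 := mul_lt_mul_of_pos_left hx h0
        have h4 := mul_le_mul_of_nonneg_left hy.le hb
        have h5 : a * β z + b * β z = β z := by rw [← add_mul, hab, one_mul]
        linarith
    · intro I hI hcard
      have : Module.finrank ℝ (Fin 3 → ℝ) = 3 := by simp
      rw [this] at hcard
      exact hcon I hI hcard
  obtain ⟨I, hIT, hI4, hIe⟩ := hex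
  have hinf : ∀ c : Fin 3 → ℝ, ∃ j : {z // z ∈ I}, β j.1 ≤ v j.1 ⬝ᵥ c := by
    intro c
    by_contra hcon
    push Not at hcon
    apply hIe
    refine ⟨c, Set.mem_iInter₂.mpr fun z hz => ?_⟩
    exact hcon ⟨z, hz⟩
  obtain ⟨lam, hnn, ⟨j0, hj0⟩, hzero, hbeta⟩ := farkas (fun j : {z // z ∈ I} => v j.1) (fun j => β j.1) hinf
  have hmemT : ∀ j : {z // z ∈ I}, j.1 ∈ T := fun j => hIT j.2
  -- the sum of the gaps is constant
  have hdot0 : ∀ x : Fin 3 → ℝ, ∑ j, lam j * (v j.1 ⬝ᵥ x) = 0 := by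
    intro x
    have h1 : (∑ j, lam j • v j.1) ⬝ᵥ x = 0 := by rw [hzero, zero_dotProduct]
    rw [sum_dotProduct] at h1
    simpa [smul_dotProduct] using h1
  obtain ⟨B, hB⟩ : ∃ B : ℝ, B = ∑ j, lam j * (v j.1 ⬝ᵥ toR j.1) := ⟨_, rfl⟩
  have hgap : ∀ x : Fin 3 → ℝ, ∑ j, lam j * (v j.1 ⬝ᵥ toR j.1 - v j.1 ⬝ᵥ x) = B := by
    intro x
    simp only [mul_sub]
    rw [Finset.sum_sub_distrib, hdot0 x, hB, sub_zero]
  have hB0 : 0 < B := by
    rw [← hgap x0]
    refine Finset.sum_pos' (fun j _ => mul_nonneg (hnn j) (by linarith [hstrict j.1 (hmemT j)])) ⟨j0, Finset.mem_univ _, ?_⟩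
    exact mul_pos hj0 (by linarith [hstrict j0.1 (hmemT j0)])
  have hsumge : (1 + s) * B ≤ ∑ j, lam j * (v j.1 ⬝ᵥ toR j.1 - v j.1 ⬝ᵥ pm j.1) := by
    have h1 : ∑ j, lam j * (s * (v j.1 ⬝ᵥ toR j.1) + v j.1 ⬝ᵥ pm j.1) ≤ 0 := by
      have h2 : ∑ j, lam j * (s * (v j.1 ⬝ᵥ toR j.1) + v j.1 ⬝ᵥ pm j.1) =
          (1 + s) * ∑ j, lam j * β j.1 := by
        rw [Finset.mul_sum, hβ]
        refine Finset.sum_congr rfl fun j _ => ?_
        have : (1 + s) ≠ 0 := by linarith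
        field_simp
      rw [h2]
      exact mul_nonpos_of_nonneg_of_nonpos (by linarith) hbeta
    have h3 : ∑ j, lam j * (s * (v j.1 ⬝ᵥ toR j.1) + v j.1 ⬝ᵥ pm j.1) =
        (1 + s) * B - ∑ j, lam j * (v j.1 ⬝ᵥ toR j.1 - v j.1 ⬝ᵥ pm j.1) := by
      rw [hB, Finset.mul_sum, ← Finset.sum_sub_distrib]
      exact Finset.sum_congr rfl fun j _ => by ring
    linarith
  have hone : ∀ j : {z // z ∈ I}, lam j * (v j.1 ⬝ᵥ toR j.1 - v j.1 ⬝ᵥ pm j.1) ≤ B := by
    intro j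
    rw [← hgap (pm j.1)]
    refine Finset.single_le_sum (f := fun i : {z // z ∈ I} => lam i * (v i.1 ⬝ᵥ toR i.1 - v i.1 ⬝ᵥ pm j.1))
      (fun i _ => mul_nonneg (hnn i) ?_) (Finset.mem_univ j)
    have h1 := hpm j.1
    rw [hM] at h1
    have := h1 i.1 (hmemT i)
    linarith
  -- four facets, all with positive weight
  have hcard4 : Fintype.card {z // z ∈ I} = 4 := by
    rw [Fintype.card_coe]
    have h1 : ∑ j : {z // z ∈ I}, lam j * (v j.1 ⬝ᵥ toR j.1 - v j.1 ⬝ᵥ pm j.1) ≤ (I.card : ℝ) * B := by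
      refine (Finset.sum_le_sum fun j _ => hone j).trans (le_of_eq ?_)
      rw [Finset.sum_const, Finset.card_univ, Fintype.card_coe, nsmul_eq_mul]
    have h2 : (1 + s) * B ≤ (I.card : ℝ) * B := hsumge.trans h1
    have h3 : 1 + s ≤ (I.card : ℝ) := le_of_mul_le_mul_right h2 hB0
    have h4 : (3 : ℝ) < (I.card : ℝ) := by linarith
    have h5 : 3 < I.card := by exact_mod_cast h4
    omega
  have hpos : ∀ j : {z // z ∈ I}, 0 < lam j := by
    intro j
    by_contra hcon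
    have hj : lam j = 0 := le_antisymm (not_lt.mp hcon) (hnn j)
    have h1 : ∑ i : {z // z ∈ I}, lam i * (v i.1 ⬝ᵥ toR i.1 - v i.1 ⬝ᵥ pm i.1) ≤ 3 * B := by
      rw [← Finset.add_sum_erase Finset.univ _ (Finset.mem_univ j), hj, zero_mul, zero_add]
      refine (Finset.sum_le_sum fun i _ => hone i).trans (le_of_eq ?_)
      rw [Finset.sum_const, Finset.card_erase_of_mem (Finset.mem_univ j), Finset.card_univ, hcard4, nsmul_eq_mul]
      norm_num
    have h2 : (1 + s) * B ≤ 3 * B := hsumge.trans h1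
    have h3 : 1 + s ≤ 3 := le_of_mul_le_mul_right h2 hB0
    linarith
  obtain ⟨e⟩ : Nonempty (Fin 4 ≃ {z // z ∈ I}) := ⟨(Fintype.equivFinOfCardEq hcard4).symm⟩
  refine ⟨fun k => (e k).1, fun k => lam (e k) / B, fun k => pm (e k).1, ?_, fun k => hmemT (e k),
    fun k => div_pos (hpos _) hB0, ?_, ?_, fun k => hpm _, ?_⟩
  · intro a b hab
    exact e.injective (Subtype.ext hab)
  · have h1 : ∑ k, (lam (e k) / B) • v (e k).1 = (1 / B) • ∑ j, lam j • v j.1 := by
      rw [Finset.smul_sum, ← Equiv.sum_comp e]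
      refine Finset.sum_congr rfl fun k _ => ?_
      rw [smul_smul]
      congr 1
      ring
    rw [h1, hzero, smul_zero]
  · have h1 : ∑ k, ((lam (e k) / B) • v (e k).1) ⬝ᵥ toR (e k).1 = (1 / B) * ∑ j, lam j * (v j.1 ⬝ᵥ toR j.1) := by
      rw [Finset.mul_sum, ← Equiv.sum_comp e]
      refine Finset.sum_congr rfl fun k _ => ?_
      rw [smul_dotProduct, smul_eq_mul]
      ring
    rw [h1, ← hB]
    field_simp
  · have h1 : ∑ k, ((lam (e k) / B) • v (e k).1) ⬝ᵥ (toR (e k).1 - pm (e k).1) =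
        (1 / B) * ∑ j, lam j * (v j.1 ⬝ᵥ toR j.1 - v j.1 ⬝ᵥ pm j.1) := by
      rw [Finset.mul_sum, ← Equiv.sum_comp e]
      refine Finset.sum_congr rfl fun k _ => ?_
      rw [smul_dotProduct, smul_eq_mul, dotProduct_sub]
      ring
    rw [h1]
    have h2 := mul_le_mul_of_nonneg_left hsumge (by positivity : (0 : ℝ) ≤ 1 / B)
    have h3 : (1 / B) * ((1 + s) * B) = 1 + s := by field_simp
    linarith

end Pool.Agent.Helper24.MX
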